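import Pool.Agent.Helper36_RF.Rot

/-!
# Module KOP of the squad MP_a23110_gt (helper71)
-/

noncomputable section

open scoped ContDiff Topology RealInnerProductSpace
set_option maxSynthPendingDepth 3
set_option linter.unusedSectionVars false
open Set MeasureTheory intervalIntegral

namespace Pool.Agent.RF.H71

variable {ι : Type} [Fintype ι] [DecidableEq ι]

/-- changing the arguments of a bilinear form by a map close to the identity -/
theorem bilComp_sub {r : E ι →L[ℝ] E ι} {s : ℝ} (h1 : ∀ v, ‖r v‖ = ‖v‖)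
    (h2 : ∀ v, ‖r v - v‖ ≤ s * ‖v‖) (hs : 0 ≤ s) (b : Bil (E ι)) :
    ‖b.bilinearComp r r - b‖ ≤ 2 * s * ‖b‖ := by
  refine ContinuousLinearMap.opNorm_le_bound₂ _ (by positivity) ?_
  intro v w
  have e : (b.bilinearComp r r - b) v w = b (r v - v) (r w) + b v (r w - w) := by
    simp only [_root_.sub_apply, ContinuousLinearMap.bilinearComp_apply, map_sub]
    ring
  rw [e]
  have h3 : ‖b (r v - v) (r w)‖ ≤ ‖b‖ * (s * ‖v‖) * ‖w‖ := by
    refine (b.le_opNorm₂ _ _).trans ?_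
    rw [h1 w]
    exact mul_le_mul_of_nonneg_right (mul_le_mul_of_nonneg_left (h2 v) (norm_nonneg _))
      (norm_nonneg _)
  have h4 : ‖b v (r w - w)‖ ≤ ‖b‖ * ‖v‖ * (s * ‖w‖) := by
    refine (b.le_opNorm₂ _ _).trans ?_
    exact mul_le_mul_of_nonneg_left (h2 w) (by positivity)
  calc _ ≤ ‖b (r v - v) (r w)‖ + ‖b v (r w - w)‖ := norm_add_le _ _
    _ ≤ ‖b‖ * (s * ‖v‖) * ‖w‖ + ‖b‖ * ‖v‖ * (s * ‖w‖) := add_le_add h3 h4
    _ = _ := by ring

variable (R : RotSys C(Sph ι, Bil (E ι)) (Gam ι) (ι × ι))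

/-- from rotation differences to spatial differences -/
theorem diff_of_rot (hι : 2 ≤ Fintype.card ι) (hR : IsRotSys R) (hP : RotPairStatement)
    (u : C(Sph ι, Bil (E ι))) (N : ℝ) (h1 : ‖u‖ ≤ N)
    (h2 : ∀ g, ∀ s ∈ Icc (0:ℝ) 1, ‖R.T g s u - u‖ ≤ N * √s) (x x' : Sph ι) :
    ‖u x - u x'‖ ≤ 6 * N * √(dist x x') := by
  obtain ⟨hp1, hp2, hp3⟩ := hP ι hι
  have hN : 0 ≤ N := (norm_nonneg _).trans h1
  obtain ⟨J, s, hs0, hs3, hx⟩ := hp3 x x'
  have hux : ∀ y, ‖u y‖ ≤ N := fun y => (u.norm_coe_le_norm y).trans h1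
  have h3 : √3 ≤ 2 := by
    rw [show (2:ℝ) = √4 by rw [show (4:ℝ) = 2 ^ 2 by norm_num, Real.sqrt_sq (by norm_num)]]
    exact Real.sqrt_le_sqrt (by norm_num)
  have h4 : √s ≤ 2 * √(dist x x') := by
    calc √s ≤ √(3 * dist x x') := Real.sqrt_le_sqrt hs3
      _ = √3 * √(dist x x') := Real.sqrt_mul (by norm_num) _
      _ ≤ _ := mul_le_mul_of_nonneg_right h3 (Real.sqrt_nonneg _)
  by_cases hs1 : s ≤ 1
  · have h5 := (R.T J s u - u).norm_coe_le_norm x
    have h6 := h5.trans (h2 J s ⟨hs0, hs1⟩)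
    have h7 : (R.T J s u - u) x = (u x').bilinearComp (rot J.1 s) (rot J.1 s) - u x := by
      rw [ContinuousMap.sub_apply, hR.T_apply J s u x x' hx]
    rw [h7] at h6
    have h8 : ‖(u x').bilinearComp (rot J.1 s) (rot J.1 s) - u x'‖ ≤ 2 * s * ‖u x'‖ :=
      bilComp_sub (fun v => hp1 J s v) (fun v => by
        have := hp2 J s v
        rwa [abs_of_nonneg hs0] at this) hs0 (u x')
    have h9 : s ≤ √s := by
      have h10 : √s * √s = s := Real.mul_self_sqrt hs0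
      have h11 : √s ≤ 1 := Real.sqrt_le_iff.2 ⟨by norm_num, by linarith⟩
      nlinarith [Real.sqrt_nonneg s]
    have h12 : u x - u x' = -((u x').bilinearComp (rot J.1 s) (rot J.1 s) - u x) +
        ((u x').bilinearComp (rot J.1 s) (rot J.1 s) - u x') := by abel
    rw [h12]
    calc _ ≤ ‖(u x').bilinearComp (rot J.1 s) (rot J.1 s) - u x‖ +
          ‖(u x').bilinearComp (rot J.1 s) (rot J.1 s) - u x'‖ := by
            refine (norm_add_le _ _).trans ?_
            rw [norm_neg]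
      _ ≤ N * √s + 2 * s * ‖u x'‖ := add_le_add h6 h8
      _ ≤ N * √s + 2 * √s * N := by
          have := mul_le_mul (mul_le_mul_of_nonneg_left h9 (by norm_num : (0:ℝ) ≤ 2)) (hux x')
            (norm_nonneg _) (by positivity)
          linarith
      _ = 3 * N * √s := by ring
      _ ≤ 3 * N * (2 * √(dist x x')) := mul_le_mul_of_nonneg_left h4 (by positivity)
      _ = _ := by ring
  · have h5 : (1:ℝ) ≤ √s := by
      rw [show (1:ℝ) = √1 by simp]
      exact Real.sqrt_le_sqrt (by linarith)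
    have h6 : ‖u x - u x'‖ ≤ 2 * N := (norm_sub_le _ _).trans (by linarith [hux x, hux x'])
    have h7 : 1 ≤ 2 * √(dist x x') := h5.trans h4
    have h8 : 0 ≤ √(dist x x') := Real.sqrt_nonneg _
    nlinarith

/-- from spatial differences to rotation differences -/
theorem rot_of_diff (hι : 2 ≤ Fintype.card ι) (hR : IsRotSys R) (hP : RotPairStatement)
    (p : FT ι (Bil (E ι))) (t : Icc (0:ℝ) 1) (J : Gam ι) (s : ℝ) (hs : s ∈ Icc (0:ℝ) 1) :
    ‖R.T J s (sl p t) - sl p t‖ ≤ 3 * ‖p‖ * √s := by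
  obtain ⟨hp1, hp2, hp3⟩ := hP ι hι
  have hs0 := hs.1
  have hs1 := hs.2
  have h9 : s ≤ √s := by
    have h10 : √s * √s = s := Real.mul_self_sqrt hs0
    have h11 : √s ≤ 1 := Real.sqrt_le_iff.2 ⟨by norm_num, by linarith⟩
    nlinarith [Real.sqrt_nonneg s]
  rw [ContinuousMap.norm_le _ (by positivity)]
  intro x
  have hx1 : ‖(x : E ι)‖ = 1 := by
    have := x.2
    rwa [mem_sphere_zero_iff_norm] at this
  set y : Sph ι := ⟨rot J.1 s x, by
    rw [mem_sphere_zero_iff_norm, hp1 J s x, hx1]⟩ with hy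
  have h1 : (R.T J s (sl p t) - sl p t) x =
      ((sl p t y).bilinearComp (rot J.1 s) (rot J.1 s) - sl p t y) + (sl p t y - sl p t x) := by
    rw [ContinuousMap.sub_apply, hR.T_apply J s (sl p t) x y rfl]
    abel
  rw [h1]
  have h2 : ‖(sl p t y).bilinearComp (rot J.1 s) (rot J.1 s) - sl p t y‖ ≤
      2 * s * ‖sl p t y‖ :=
    bilComp_sub (fun v => hp1 J s v) (fun v => by
        have := hp2 J s v
        rwa [abs_of_nonneg hs0] at this) hs0 _
  have h3 : ‖sl p t y‖ ≤ ‖p‖ := p.norm_apply_le (t, y)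
  have h4 : ‖sl p t y - sl p t x‖ ≤ ‖p‖ * √s := by
    by_cases hyx : y = x
    · rw [hyx, sub_self, norm_zero]; positivity
    · have h5 := p.norm_diff_le (⟨(t, y, x), hyx⟩ :
        {q : Icc (0:ℝ) 1 × Sph ι × Sph ι // q.2.1 ≠ q.2.2})
      refine le_trans (show _ ≤ ‖p‖ * √(dist y x) from h5) ?_
      refine mul_le_mul_of_nonneg_left (Real.sqrt_le_sqrt ?_) (norm_nonneg _)
      have h6 : dist y x = ‖rot J.1 s x - x‖ := by
        rw [Subtype.dist_eq, dist_eq_norm]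
      rw [h6]
      have h7 := hp2 J s x
      rw [abs_of_nonneg hs0, hx1, mul_one] at h7
      exact h7
  calc _ ≤ _ := norm_add_le _ _
    _ ≤ 2 * s * ‖sl p t y‖ + ‖p‖ * √s := add_le_add h2 h4
    _ ≤ 2 * √s * ‖p‖ + ‖p‖ * √s := by
        have := mul_le_mul (mul_le_mul_of_nonneg_left h9 (by norm_num : (0:ℝ) ≤ 2)) h3
            (norm_nonneg _) (by positivity)
        linarith
    _ = _ := by ring

/-- building an element of the function space -/
theorem build (hι : 2 ≤ Fintype.card ι) (hR : IsRotSys R) (hP : RotPairStatement)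
    (T : ℝ) (hT : 0 < T) (g : ℝ → C(Sph ι, Bil (E ι))) (hg : ContinuousOn g (Icc 0 T)) (N : ℝ)
    (h1 : ∀ t ∈ Icc 0 T, ‖g t‖ ≤ N)
    (h2 : ∀ t ∈ Icc 0 T, ∀ J, ∀ s ∈ Icc (0:ℝ) 1, ‖R.T J s (g t) - g t‖ ≤ N * √s) :
    ∃ P : FT ι (Bil (E ι)), (∀ t : Icc (0:ℝ) 1, sl P t = g (T * t)) ∧ ‖P‖ ≤ 6 * N := by
  have hmem : ∀ t : Icc (0:ℝ) 1, T * (t:ℝ) ∈ Icc 0 T := fun t =>
    ⟨mul_nonneg hT.le t.2.1, by nlinarith [t.2.2]⟩
  have hc1 : Continuous fun t : Icc (0:ℝ) 1 => g (T * t) := by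
    have h3 : Continuous fun t : Icc (0:ℝ) 1 => (⟨T * t, hmem t⟩ : Icc (0:ℝ) T) := by
      apply Continuous.subtype_mk
      fun_prop
    exact (continuousOn_iff_continuous_domRestrict.1 hg).comp h3
  have hc : Continuous fun q : Icc (0:ℝ) 1 × Sph ι => g (T * q.1) q.2 := by
    have h4 : Continuous fun q : Icc (0:ℝ) 1 × Sph ι => (g (T * q.1), q.2) :=
      (hc1.comp continuous_fst).prodMk continuous_snd
    exact continuous_eval.comp h4
  have hN : 0 ≤ N := (norm_nonneg _).trans (h1 0 ⟨le_rfl, hT.le⟩)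
  have hd : ∀ i : {q : Icc (0:ℝ) 1 × Sph ι × Sph ι // q.2.1 ≠ q.2.2},
      ‖(⟨_, hc⟩ : C(Icc (0:ℝ) 1 × Sph ι, Bil (E ι))) ((PS ι).k i) -
        (⟨_, hc⟩ : C(Icc (0:ℝ) 1 × Sph ι, Bil (E ι))) ((PS ι).k' i)‖ ≤ 6 * N * (PS ι).w i := by
    intro i
    exact diff_of_rot R hι hR hP (g (T * i.1.1)) N (h1 _ (hmem _)) (h2 _ (hmem _)) i.1.2.1 i.1.2.2
  refine ⟨LipSp.mk' ⟨_, hc⟩ (6 * N) hd, ?_, ?_⟩
  · intro t
    ext1 x
    rfl
  · refine LipSp.norm_le (by positivity) (fun q => ?_) hd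
    exact (((g (T * q.1)).norm_coe_le_norm q.2).trans (h1 _ (hmem q.1))).trans (by linarith)

/-- continuity of the Duhamel integrand -/
theorem duhamel_cont {𝓔 : Type} [NormedAddCommGroup 𝓔] [NormedSpace ℝ 𝓔] {Γ A : Type} [Fintype A]
    {R : RotSys 𝓔 Γ A} (H : Heat R) (f : ℝ → 𝓔) (hf : Continuous f) (t : ℝ) :
    ContinuousOn (fun r => H.S (t - r) (f r)) (Icc 0 t) := by
  intro r₀ hr₀
  rw [ContinuousWithinAt, tendsto_iff_norm_sub_tendsto_zero]
  have h1 : Filter.Tendsto (fun r => ‖f r - f r₀‖ + ‖H.S (t - r) (f r₀) - H.S (t - r₀) (f r₀)‖)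
      (𝓝[Icc 0 t] r₀) (𝓝 (0 + 0)) := by
    apply Filter.Tendsto.add
    · have : Filter.Tendsto f (𝓝[Icc 0 t] r₀) (𝓝 (f r₀)) :=
        hf.continuousAt.tendsto.mono_left nhdsWithin_le_nhds
      exact tendsto_iff_norm_sub_tendsto_zero.1 this
    · have h2 : ContinuousWithinAt (fun r => H.S (t - r) (f r₀)) (Icc 0 t) r₀ := by
        have h3 : ContinuousWithinAt (fun s => H.S s (f r₀)) (Ici 0) (t - r₀) :=
          H.cont (f r₀) (t - r₀) (by simp only [mem_Ici]; linarith [hr₀.2])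
        refine ContinuousWithinAt.comp (t := Ici 0) (f := fun r => t - r) h3 ?_ ?_
        · fun_prop
        · intro r hr
          simp only [mem_Ici]; linarith [hr.2]
      exact tendsto_iff_norm_sub_tendsto_zero.1 h2
  rw [add_zero] at h1
  refine squeeze_zero' (Filter.Eventually.of_forall fun r => norm_nonneg _) ?_ h1
  filter_upwards [self_mem_nhdsWithin] with r hr
  have h4 : H.S (t - r) (f r) - H.S (t - r₀) (f r₀) = H.S (t - r) (f r - f r₀) +
      (H.S (t - r) (f r₀) - H.S (t - r₀) (f r₀)) := by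
    rw [map_sub]; abel
  rw [h4]
  refine (norm_add_le _ _).trans (add_le_add ?_ le_rfl)
  exact H.norm_S (t - r) (by linarith [hr.2]) _

theorem duhamel_int {𝓔 : Type} [NormedAddCommGroup 𝓔] [NormedSpace ℝ 𝓔] {Γ A : Type} [Fintype A]
    {R : RotSys 𝓔 Γ A} (H : Heat R) (f : ℝ → 𝓔) (hf : Continuous f) (t : ℝ) (ht : 0 ≤ t) :
    IntervalIntegrable (fun r => H.S (t - r) (f r)) volume 0 t := by
  apply ContinuousOn.intervalIntegrable
  rw [uIcc_of_le ht]
  exact duhamel_cont H f hf t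

/-- the source term as a function of time -/
def src (T : ℝ) (p : FT ι (Bil (E ι))) (r : ℝ) : C(Sph ι, Bil (E ι)) :=
  sl p (projIcc 0 1 zero_le_one (r / T))

theorem sl_cont (p : FT ι (Bil (E ι))) : Continuous fun t => sl p t := by
  have h : (fun t => sl p t) = fun t => p.1.1.curry t := by
    funext t; ext1 x; rfl
  rw [h]
  exact (p.1.1.curry).continuous

theorem src_cont (T : ℝ) (p : FT ι (Bil (E ι))) : Continuous (src T p) := by
  unfold src
  exact (sl_cont p).comp (continuous_projIcc.comp (continuous_id.div_const T))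

theorem src_mul {T : ℝ} (hT : 0 < T) (p : FT ι (Bil (E ι))) (t : Icc (0:ℝ) 1) :
    src T p (T * t) = sl p t := by
  unfold src
  congr 1
  rw [mul_div_cancel_left₀ _ hT.ne']
  exact projIcc_val zero_le_one t

theorem hasGen_unique {𝓔 : Type} [NormedAddCommGroup 𝓔] [NormedSpace ℝ 𝓔] {Γ A : Type} [Fintype A]
    {R : RotSys 𝓔 Γ A} {g : Γ} {f f₁ f₂ : 𝓔} (h1 : R.HasGen g f f₁) (h2 : R.HasGen g f f₂) :
    f₁ = f₂ := HasDerivAt.unique h1 h2

theorem hasGen_add {𝓔 : Type} [NormedAddCommGroup 𝓔] [NormedSpace ℝ 𝓔] {Γ A : Type} [Fintype A]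
    {R : RotSys 𝓔 Γ A} {g : Γ} {f₁ f₂ f₁' f₂' : 𝓔} (h1 : R.HasGen g f₁ f₁')
    (h2 : R.HasGen g f₂ f₂') : R.HasGen g (f₁ + f₂) (f₁' + f₂') := by
  unfold RotSys.HasGen at *
  have e : (fun s => R.T g s (f₁ + f₂)) = (fun s => R.T g s f₁) + fun s => R.T g s f₂ := by
    funext s; simp [map_add]
  rw [e]
  exact h1.add h2

theorem hasGen_smul {𝓔 : Type} [NormedAddCommGroup 𝓔] [NormedSpace ℝ 𝓔] {Γ A : Type} [Fintype A]
    {R : RotSys 𝓔 Γ A} {g : Γ} {f₁ f₁' : 𝓔} (c : ℝ) (h1 : R.HasGen g f₁ f₁') :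
    R.HasGen g (c • f₁) (c • f₁') := by
  unfold RotSys.HasGen at *
  have e : (fun s => R.T g s (c • f₁)) = c • (fun s => R.T g s f₁) := by
    funext s; simp [map_smul]
  rw [e]
  exact h1.const_smul c

theorem sl_ext {p q : FT ι (Bil (E ι))} (h : ∀ t, sl p t = sl q t) : p = q := by
  apply LipSp.ext'
  rintro ⟨t, x⟩
  exact DFunLike.congr_fun (h t) x

theorem sl_add (p q : FT ι (Bil (E ι))) (t) : sl (p + q) t = sl p t + sl q t := by
  ext1 x; rfl

theorem sl_smul (c : ℝ) (p : FT ι (Bil (E ι))) (t) : sl (c • p) t = c • sl p t := by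
  ext1 x; rfl

/-- KOP -/
theorem kop (hH : HeatStatement) (hM : MaxRegStatement) (hC : HeatCommStatement)
    (hP : RotPairStatement) : KopStatement := by
  intro ι _ _ hι R hR
  obtain ⟨H⟩ := hH C(Sph ι, Bil (E ι)) (Gam ι) (ι × ι) R
  obtain ⟨C₀, hC₀, hM⟩ := hM C(Sph ι, Bil (E ι)) (Gam ι) (ι × ι) R H
  refine ⟨18 * C₀, by positivity, ?_⟩
  intro T hT hT1
  have hTq : T ^ (1/4 : ℝ) ≤ 1 := Real.rpow_le_one hT.le hT1 (by norm_num)
  have hTq0 : 0 ≤ T ^ (1/4 : ℝ) := Real.rpow_nonneg hT.le _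
  set V : FT ι (Bil (E ι)) → ℝ → C(Sph ι, Bil (E ι)) :=
    fun p t => ∫ r in (0:ℝ)..t, H.S (t - r) (src T p r) with hV
  have key : ∀ p : FT ι (Bil (E ι)), ∃ (K : FT ι (Bil (E ι))) (K1 : ι × ι → FT ι (Bil (E ι)))
      (K2 : ι × ι → ι × ι → FT ι (Bil (E ι))),
      (∀ t : Icc (0:ℝ) 1, sl K t = V p (T * t)) ∧
      (∀ t a, R.HasGen (R.J a) (sl K t) (sl (K1 a) t)) ∧
      (∀ t a b, R.HasGen (R.J a) (sl (K1 b) t) (sl (K2 a b) t)) ∧
      (∀ t : Icc (0:ℝ) 1, HasDerivWithinAt (V p) (∑ a, sl (K2 a a) t + sl p t) (Icc 0 T) (T * t)) ∧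
      ‖K‖ ≤ 18 * C₀ * T ^ (1/4 : ℝ) * ‖p‖ ∧ (∀ a, ‖K1 a‖ ≤ 18 * C₀ * T ^ (1/4 : ℝ) * ‖p‖) ∧
      (∀ a b, ‖K2 a b‖ ≤ 18 * C₀ * ‖p‖) ∧
      (∀ a b, ‖(K2 a b).1.1‖ ≤ 18 * C₀ * T ^ (1/4 : ℝ) * ‖p‖) := by
    intro p
    obtain ⟨va, vab, h1, h2, h3, h4⟩ := hM T hT hT1 (3 * ‖p‖) (src T p) (src_cont T p).continuousOn
      (fun t _ => by
        rw [ContinuousMap.norm_le _ (by positivity)]
        intro x
        exact (p.norm_apply_le _).trans (by linarith [norm_nonneg p]))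
      (fun t _ g s hs => rot_of_diff R hι hR hP p _ g s hs)
    have hmem : ∀ t : Icc (0:ℝ) 1, T * (t:ℝ) ∈ Icc 0 T := fun t =>
      ⟨mul_nonneg hT.le t.2.1, by nlinarith [t.2.2]⟩
    have hle : C₀ * (3 * ‖p‖) * T ^ (1/4 : ℝ) ≤ C₀ * (3 * ‖p‖) := by
      have : 0 ≤ C₀ * (3 * ‖p‖) := by positivity
      nlinarith
    obtain ⟨K, hK, hKn⟩ := build R hι hR hP T hT (V p) h1 (C₀ * (3 * ‖p‖) * T ^ (1/4 : ℝ))
      (fun t ht => (h4 t ht).2.2.2.1) (fun t ht J s hs => ((h4 t ht).2.2.2.2.2.2 J s hs).1)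
    have hb1 : ∀ a, ∃ P : FT ι (Bil (E ι)), (∀ t : Icc (0:ℝ) 1, sl P t = va a (T * t)) ∧
        ‖P‖ ≤ 6 * (C₀ * (3 * ‖p‖) * T ^ (1/4 : ℝ)) := fun a =>
      build R hι hR hP T hT (va a) (h2 a) _ (fun t ht => (h4 t ht).2.2.2.2.1 a)
        (fun t ht J s hs => ((h4 t ht).2.2.2.2.2.2 J s hs).2.1 a)
    choose K1 hK1 hK1n using hb1
    have hb2 : ∀ a b, ∃ P : FT ι (Bil (E ι)), (∀ t : Icc (0:ℝ) 1, sl P t = vab a b (T * t)) ∧
        ‖P‖ ≤ 6 * (C₀ * (3 * ‖p‖)) := fun a b =>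
      build R hι hR hP T hT (vab a b) (h3 a b) _
        (fun t ht => ((h4 t ht).2.2.2.2.2.1 a b).trans hle)
        (fun t ht J s hs => ((h4 t ht).2.2.2.2.2.2 J s hs).2.2 a b)
    choose K2 hK2 hK2n using hb2
    refine ⟨K, K1, K2, hK, ?_, ?_, ?_, ?_, ?_, ?_, ?_⟩
    · intro t a
      rw [hK, hK1]
      exact (h4 _ (hmem t)).1 a
    · intro t a b
      rw [hK1, hK2]
      exact (h4 _ (hmem t)).2.1 a b
    · intro t
      have h5 := (h4 _ (hmem t)).2.2.1
      rw [src_mul hT] at h5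
      simp only [hK2]
      exact h5
    · refine hKn.trans (le_of_eq ?_); ring
    · intro a; refine (hK1n a).trans (le_of_eq ?_); ring
    · intro a b; refine (hK2n a b).trans (le_of_eq ?_); ring
    · intro a b
      rw [ContinuousMap.norm_le _ (by positivity)]
      rintro ⟨t, x⟩
      have h5 : (K2 a b).1.1 (t, x) = vab a b (T * t) x := DFunLike.congr_fun (hK2 a b t) x
      rw [h5]
      have h6 := ((vab a b (T * t)).norm_coe_le_norm x).trans
        ((h4 _ (hmem t)).2.2.2.2.2.1 a b)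
      refine h6.trans ?_
      have : 0 ≤ C₀ * ‖p‖ * T ^ (1/4 : ℝ) := by positivity
      nlinarith
  choose K K1 K2 hK hK1 hK2 hKd hKn hK1n hK2n hK2n' using key
  have hmem : ∀ t : Icc (0:ℝ) 1, T * (t:ℝ) ∈ Icc 0 T := fun t =>
      ⟨mul_nonneg hT.le t.2.1, by nlinarith [t.2.2]⟩
  have hVadd : ∀ p q (t : Icc (0:ℝ) 1), V (p + q) (T * t) = V p (T * t) + V q (T * t) := by
    intro p q t
    simp only [hV]
    rw [← intervalIntegral.integral_add (duhamel_int H _ (src_cont T p) _ (hmem t).1)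
      (duhamel_int H _ (src_cont T q) _ (hmem t).1)]
    congr 1
    funext r
    rw [← map_add]
    congr 1
  have hVsmul : ∀ (c : ℝ) p (t : Icc (0:ℝ) 1), V (c • p) (T * t) = c • V p (T * t) := by
    intro c p t
    simp only [hV]
    rw [← intervalIntegral.integral_smul]
    congr 1
    funext r
    rw [← map_smul]
    congr 1
  have hKadd : ∀ p q, K (p + q) = K p + K q := fun p q => sl_ext fun t => by
    rw [sl_add, hK, hK, hK, hVadd]
  have hKsmul : ∀ (c : ℝ) p, K (c • p) = c • K p := fun c p => sl_ext fun t => by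
    rw [sl_smul, hK, hK, hVsmul]
  have hK1add : ∀ a p q, K1 (p + q) a = K1 p a + K1 q a := fun a p q => sl_ext fun t => by
    refine hasGen_unique (hK1 (p + q) t a) ?_
    rw [hKadd, sl_add, sl_add]
    exact hasGen_add (hK1 p t a) (hK1 q t a)
  have hK1smul : ∀ a (c : ℝ) p, K1 (c • p) a = c • K1 p a := fun a c p => sl_ext fun t => by
    refine hasGen_unique (hK1 (c • p) t a) ?_
    rw [hKsmul, sl_smul, sl_smul]
    exact hasGen_smul c (hK1 p t a)
  have hK2add : ∀ a b p q, K2 (p + q) a b = K2 p a b + K2 q a b := fun a b p q =>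
    sl_ext fun t => by
      refine hasGen_unique (hK2 (p + q) t a b) ?_
      rw [hK1add, sl_add, sl_add]
      exact hasGen_add (hK2 p t a b) (hK2 q t a b)
  have hK2smul : ∀ a b (c : ℝ) p, K2 (c • p) a b = c • K2 p a b := fun a b c p =>
    sl_ext fun t => by
      refine hasGen_unique (hK2 (c • p) t a b) ?_
      rw [hK1smul, sl_smul, sl_smul]
      exact hasGen_smul c (hK2 p t a b)
  let KL : FT ι (Bil (E ι)) →L[ℝ] FT ι (Bil (E ι)) := LinearMap.mkContinuous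
    { toFun := K, map_add' := hKadd, map_smul' := hKsmul } (18 * C₀ * T ^ (1/4 : ℝ)) hKn
  let K1L : ι × ι → FT ι (Bil (E ι)) →L[ℝ] FT ι (Bil (E ι)) := fun a => LinearMap.mkContinuous
    { toFun := fun p => K1 p a, map_add' := hK1add a, map_smul' := hK1smul a }
    (18 * C₀ * T ^ (1/4 : ℝ)) (fun p => hK1n p a)
  let K2L : ι × ι → ι × ι → FT ι (Bil (E ι)) →L[ℝ] FT ι (Bil (E ι)) := fun a b =>
    LinearMap.mkContinuous
    { toFun := fun p => K2 p a b, map_add' := hK2add a b, map_smul' := hK2smul a b }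
    (18 * C₀) (fun p => hK2n p a b)
  have hKL : ∀ p, KL p = K p := fun p => rfl
  have hK1L : ∀ a p, K1L a p = K1 p a := fun a p => rfl
  have hK2L : ∀ a b p, K2L a b p = K2 p a b := fun a b p => rfl
  refine ⟨KL, K1L, K2L, ?_⟩
  refine ⟨?_, ?_, ?_, ?_, ?_, ?_, ?_, ?_, ?_, ?_⟩
  · intro p t a
    rw [hKL, hK1L]; exact hK1 p t a
  · intro p t a b
    rw [hK1L, hK2L]; exact hK2 p t a b
  · intro p x
    rw [hKL]
    have h1 := hK p ⟨0, by simp⟩
    have h2 : V p (T * ((⟨0, by simp⟩ : Icc (0:ℝ) 1) : ℝ)) = 0 := by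
      simp [hV]
    rw [h2] at h1
    have := DFunLike.congr_fun h1 x
    exact this
  · intro p t x
    have h1 := hKd p t
    have h2 : HasDerivWithinAt (fun s : ℝ => T * s) T (Icc 0 1) (t : ℝ) := by
      have := (hasDerivAt_id (t : ℝ)).const_mul T
      simpa using this.hasDerivWithinAt
    have h3 : MapsTo (fun s : ℝ => T * s) (Icc 0 1) (Icc 0 T) := fun s hs =>
      hmem ⟨s, hs⟩
    have h4 := h1.scomp (t : ℝ) h2 h3
    have h5 := ((ContinuousMap.evalCLM ℝ x : C(Sph ι, Bil (E ι)) →L[ℝ] Bil (E ι)).hasFDerivAt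
      (x := V p (T * t))).comp_hasDerivWithinAt (t : ℝ) h4
    have h6 : HasDerivWithinAt (fun s : ℝ => V p (T * s) x)
        (T • ((∑ a, K2 p a a (t, x)) + p (t, x))) (Icc 0 1) t := by
      have e : (ContinuousMap.evalCLM ℝ x : C(Sph ι, Bil (E ι)) →L[ℝ] Bil (E ι))
          (T • (∑ a, sl (K2 p a a) t + sl p t)) = T • ((∑ a, K2 p a a (t, x)) + p (t, x)) := by
        rw [map_smul, map_add, map_sum]
        rfl
      rw [e] at h5
      exact h5
    refine h6.congr ?_ ?_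
    · intro s hs
      rw [hKL]
      have h7 := DFunLike.congr_fun (hK p (projIcc 0 1 zero_le_one s)) x
      rw [projIcc_of_mem zero_le_one hs] at h7 ⊢
      exact h7
    · rw [hKL]
      have h7 := DFunLike.congr_fun (hK p t) x
      rw [projIcc_val]
      exact h7
  · intro p; rw [hKL]; exact hKn p
  · intro a p; rw [hK1L]; exact hK1n p a
  · intro a b p; rw [hK2L]; exact hK2n p a b
  · intro a b p; rw [hK2L]; exact hK2n' p a b
  · intro J s p q hpq t
    rw [hKL, hKL, hK, hK]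
    simp only [hV]
    rw [← ContinuousLinearMap.intervalIntegral_comp_comm _
      (duhamel_int H _ (src_cont T p) _ (hmem t).1)]
    apply intervalIntegral.integral_congr
    intro r hr
    rw [uIcc_of_le (hmem t).1] at hr
    have h1 : src T q r = R.T J s (src T p r) := hpq _
    simp only
    rw [h1, H.comm _ (by linarith [hr.2])]
  · intro B hB p hp t
    rw [hKL, hK]
    simp only [hV]
    rw [← ContinuousLinearMap.intervalIntegral_comp_comm _
      (duhamel_int H _ (src_cont T p) _ (hmem t).1)]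
    apply intervalIntegral.integral_congr
    intro r hr
    rw [uIcc_of_le (hmem t).1] at hr
    have h1 : B (src T p r) = src T p r := hp _
    simp only
    rw [hC _ _ _ R H B hB _ (by linarith [hr.2]), h1]

end Pool.Agent.RF.H71
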