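import Pool.Agent.Helper36_RF.ExistMod
import Pool.Agent.Helper25_RF.Lie
import Pool.Agent.Helper25_RF.RotBasic

/-!
# Module CSOL (MP_a23110_gt squad): solutions with cylindrical initial data (helper71)
-/

noncomputable section

open scoped ContDiff Topology RealInnerProductSpace
set_option maxSynthPendingDepth 3
set_option linter.unusedSectionVars false
open Set Metric

namespace Pool.Agent.RF.H71

open Pool.Agent.RF Pool.Agent.Helper25RF

variable {ι : Type} [Fintype ι] [DecidableEq ι]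

/-- Lie derivatives of radially normalized fields kill the position vector. -/
theorem lieX_radial {u : E ι → Bil (E ι)} (hs : ContDiffOn ℝ ∞ u (Om ι)) {κ : ℝ}
    (hu : ∀ x ∈ Om ι, ∀ w, u x x w = κ * (⟪x, w⟫ / ‖x‖ ^ 2)) {J : E ι →L[ℝ] E ι}
    (hJ : ∀ v w, ⟪J v, w⟫ = -⟪v, J w⟫) : ∀ x ∈ Om ι, ∀ w, lieX J u x x w = 0 := by
  intro x hx w
  have hx0 : rot J 0 x = x := by rw [rot_zero]; rfl
  have h1 : HasDerivAt (fun s => rot J s x) (J x) 0 := by
    have := hasDerivAt_rot J 0 x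
    rwa [hx0] at this
  have h2 : HasDerivAt (fun s => u (rot J s x)) (fderiv ℝ u x (J x)) 0 := by
    have h0 : HasFDerivAt u (fderiv ℝ u x) (rot J 0 x) := by
      rw [hx0]; exact (diffAt_Om hs hx).hasFDerivAt
    exact h0.comp_hasDerivAt 0 h1
  have h3 : HasDerivAt (fun s => u (rot J s x) (rot J s x))
      (fderiv ℝ u x (J x) x + u x (J x)) 0 := by
    have := h2.clm_apply h1
    rwa [hx0] at this
  have h4 : HasDerivAt (fun s => u (rot J s x) (rot J s x) w)
      (fderiv ℝ u x (J x) x w + u x (J x) w) 0 := by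
    have h40 : HasFDerivAt (fun L : E ι →L[ℝ] ℝ => L w)
        (ContinuousLinearMap.apply ℝ ℝ w) (u (rot J 0 x) (rot J 0 x)) :=
      (ContinuousLinearMap.apply ℝ ℝ w).hasFDerivAt
    exact h40.comp_hasDerivAt 0 h3
  have h5 : HasDerivAt (fun s => κ * (⟪rot J s x, w⟫ / ‖x‖ ^ 2)) (κ * (⟪J x, w⟫ / ‖x‖ ^ 2)) 0 := by
    have h50 : HasDerivAt (fun s => ⟪rot J s x, w⟫) ⟪J x, w⟫ 0 := by
      have := h1.inner ℝ (hasDerivAt_const (0:ℝ) w)
      simpa using this
    exact (h50.div_const _).const_mul κ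
  have h6 : (fun s => u (rot J s x) (rot J s x) w) = fun s => κ * (⟪rot J s x, w⟫ / ‖x‖ ^ 2) := by
    funext s
    have hne : rot J s x ∈ Om ι := by
      intro h0
      have := norm_rot hJ s x
      rw [h0, norm_zero] at this
      exact hx (norm_eq_zero.1 this.symm)
    rw [hu _ hne, norm_rot hJ]
  rw [h6] at h4
  have h7 := h4.unique h5
  rw [lieX_apply, h7, hu x hx, hJ]
  ring

theorem lieX_symm {u : E ι → Bil (E ι)} (hs : ContDiffOn ℝ ∞ u (Om ι))
    (hu : ∀ x ∈ Om ι, ∀ v w, u x v w = u x w v) (J : E ι →L[ℝ] E ι) :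
    ∀ x ∈ Om ι, ∀ v w, lieX J u x v w = lieX J u x w v := by
  intro x hx v w
  have h1 : fderiv ℝ u x (J x) v w = fderiv ℝ u x (J x) w v := by
    have h2 : ∀ v w, HasFDerivAt (fun y => u y v w)
        (((ContinuousLinearMap.apply ℝ ℝ w).comp
          (ContinuousLinearMap.apply ℝ (E ι →L[ℝ] ℝ) v)).comp (fderiv ℝ u x)) x := by
      intro v w
      exact ((ContinuousLinearMap.apply ℝ ℝ w).comp
          (ContinuousLinearMap.apply ℝ (E ι →L[ℝ] ℝ) v)).hasFDerivAt.comp x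
            (diffAt_Om hs hx).hasFDerivAt
    have h3 : HasFDerivAt (fun y => u y v w)
        (((ContinuousLinearMap.apply ℝ ℝ v).comp
          (ContinuousLinearMap.apply ℝ (E ι →L[ℝ] ℝ) w)).comp (fderiv ℝ u x)) x := by
      refine (h2 w v).congr_of_eventuallyEq ?_
      filter_upwards [isOpen_Om.mem_nhds hx] with y hy
      exact hu y hy v w
    exact congrArg (fun L : E ι →L[ℝ] ℝ => L (J x)) ((h2 v w).unique h3)
  rw [lieX_apply, lieX_apply, h1, hu x hx (J v) w, hu x hx v (J w)]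
  ring

/-- the second Lie derivatives of a cylinder metric are fixed by the projection -/
theorem PiB_casimir {u : E ι → Bil (E ι)} (hu : IsCyl u)
    (hJ : ∀ a : ι × ι, ∀ v w, ⟪Jst a v, w⟫ = -⟪v, Jst a w⟫) {x : E ι} (hx : ‖x‖ = 1) :
    PiB x (∑ a, lieX (Jst a) (lieX (Jst a) u) x) = ∑ a, lieX (Jst a) (lieX (Jst a) u) x := by
  have hxO : x ∈ Om ι := by
    intro h0; rw [h0, norm_zero] at hx; exact zero_ne_one hx
  rw [map_sum]
  refine Finset.sum_congr rfl fun a _ => ?_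
  apply PiB_fix
  · exact lieX_symm (contDiffOn_lieX hu.metric.smooth _)
      (lieX_symm hu.metric.smooth hu.metric.symm _) _ x hxO
  · have h1 : ∀ y ∈ Om ι, ∀ w, lieX (Jst a) u y y w = 0 :=
      lieX_radial hu.metric.smooth (κ := 1) (fun y hy w => by rw [hu.radial y hy, one_mul]) (hJ a)
    exact lieX_radial (contDiffOn_lieX hu.metric.smooth _) (κ := 0)
      (fun y hy w => by rw [h1 y hy w, zero_mul]) (hJ a) x hxO

/-- the projection as an operator on sections -/
def piOp (ι : Type) [Fintype ι] [DecidableEq ι] :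
    C(Sph ι, Bil (E ι)) →L[ℝ] C(Sph ι, Bil (E ι)) :=
  LinearMap.mkContinuous
    { toFun := fun f => ⟨fun x => PiB (x : E ι) (f x),
        (contDiff_PiB.continuous.comp continuous_subtype_val).clm_apply f.continuous⟩
      map_add' := fun f g => by ext1 x; exact (PiB (x : E ι)).map_add _ _
      map_smul' := fun c f => by ext1 x; exact (PiB (x : E ι)).map_smul _ _ }
    ‖(⟨fun x : Sph ι => PiB (x : E ι),
        contDiff_PiB.continuous.comp continuous_subtype_val⟩ :
        C(Sph ι, Bil (E ι) →L[ℝ] Bil (E ι)))‖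
    (by
      intro f
      rw [ContinuousMap.norm_le _ (by positivity)]
      intro x
      refine (ContinuousLinearMap.le_opNorm _ _).trans ?_
      exact mul_le_mul
        ((⟨fun x : Sph ι => PiB (x : E ι),
          contDiff_PiB.continuous.comp continuous_subtype_val⟩ :
          C(Sph ι, Bil (E ι) →L[ℝ] Bil (E ι))).norm_coe_le_norm x)
        (f.norm_coe_le_norm x) (norm_nonneg _) (by positivity))

theorem piOp_apply (f : C(Sph ι, Bil (E ι))) (x : Sph ι) : piOp ι f x = PiB (x : E ι) (f x) := rfl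

theorem piOp_comm {R : RotSys C(Sph ι, Bil (E ι)) (Gam ι) (ι × ι)} (hR : IsRotSys R)
    (J : Gam ι) (s : ℝ) (f : C(Sph ι, Bil (E ι))) :
    piOp ι (R.T J s f) = R.T J s (piOp ι f) := by
  ext1 x
  rw [piOp_apply, hR.T_apply J s f x (rotS J s x) (rotS_coe J s x),
    hR.T_apply J s (piOp ι f) x (rotS J s x) (rotS_coe J s x), piOp_apply, rotS_coe]
  apply PiB_comp
  intro v w
  have h := LinearIsometryEquiv.inner_map_map (rotE J s) v w
  exact h

theorem sph_norm (x : Sph ι) : ‖(x : E ι)‖ = 1 := mem_sphere_zero_iff_norm.1 x.2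

theorem sph_mem_Om (x : Sph ι) : (x : E ι) ∈ Om ι := by
  intro h0
  have := sph_norm x
  rw [h0, norm_zero] at this
  exact zero_ne_one this

/-- the direction of a nonzero vector -/
def dir (x : E ι) (hx : x ∈ Om ι) : Sph ι :=
  ⟨‖x‖⁻¹ • x, by simp [norm_smul, inv_mul_cancel₀ (norm_ne_zero_iff.2 hx)]⟩

theorem dir_coe (x : E ι) (hx : x ∈ Om ι) : (dir x hx : E ι) = ‖x‖⁻¹ • x := rfl

theorem norm_smul_dir (x : E ι) (hx : x ∈ Om ι) : ‖x‖ • (dir x hx : E ι) = x := by
  rw [dir_coe, smul_smul, mul_inv_cancel₀ (norm_ne_zero_iff.2 hx), one_smul]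

theorem hat_eq (p : FT ι (Bil (E ι))) (t : ℝ) (x : E ι) (hx : x ∈ Om ι) :
    hat p t x = (‖x‖ ^ 2)⁻¹ • p (projIcc 0 1 zero_le_one t, dir x hx) := by
  have hx' : x ≠ 0 := hx
  unfold hat
  rw [dif_pos hx']
  rfl

theorem hat_sph (p : FT ι (Bil (E ι))) (t : Icc (0:ℝ) 1) (x : Sph ι) :
    hat p t x = p (t, x) := by
  rw [hat_eq p t x (sph_mem_Om x), sph_norm, projIcc_val]
  have h : dir (x : E ι) (sph_mem_Om x) = x := by
    apply Subtype.ext
    rw [dir_coe, sph_norm, inv_one, one_smul]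
  rw [h]
  norm_num

theorem hat_homog (p : FT ι (Bil (E ι))) (t : ℝ) : Homog (hat p t) := by
  intro c hc x hx
  have hcx : c • x ∈ Om ι := smul_mem_Om hc hx
  rw [hat_eq p t x hx, hat_eq p t _ hcx]
  have h : dir (c • x) hcx = dir x hx := by
    apply Subtype.ext
    rw [dir_coe, dir_coe, norm_smul, Real.norm_of_nonneg hc.le, smul_smul]
    congr 1
    field_simp
  rw [h, norm_smul, Real.norm_of_nonneg hc.le, smul_smul]
  congr 1
  rw [mul_pow, mul_inv]

/-- slices of components -/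
def comp1 (a : ι × ι) (W : FT ι (A1 ι)) : FT ι (Bil (E ι)) :=
  LipSp.mapL (ContinuousLinearMap.proj (R := ℝ) (φ := fun _ : ι × ι => Bil (E ι)) a) W

theorem comp1_apply (a : ι × ι) (W : FT ι (A1 ι)) (q : Icc (0:ℝ) 1 × Sph ι) :
    comp1 a W q = W q a := rfl

def comp2 (a b : ι × ι) (W : FT ι (A2 ι)) : FT ι (Bil (E ι)) :=
  LipSp.mapL ((ContinuousLinearMap.proj (R := ℝ) (φ := fun _ : ι × ι => Bil (E ι)) b).comp
    (ContinuousLinearMap.proj (R := ℝ) (φ := fun _ : ι × ι => A1 ι) a)) W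

theorem comp2_apply (a b : ι × ι) (W : FT ι (A2 ι)) (q : Icc (0:ℝ) 1 × Sph ι) :
    comp2 a b W q = W q a b := rfl

theorem csol (hgen : GenStatement) (hcyl : RdtCylStatement) (hsym : SymStatement) :
    CsolStatement := by
  intro ι _ _ hι R hR c Gf r C hQ hr C' T K K1 K2 hT hK u U p hu hU hfix hclose hsmooth
  obtain ⟨hU0, hU1, hU2⟩ := hU
  obtain ⟨-, -, hr0, -, hrdt⟩ := hQ
  have hJ : ∀ a : ι × ι, ∀ v w, ⟪Jst a v, w⟫ = -⟪v, Jst a w⟫ := by
    intro a
    rw [← hR.J_eq a]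
    exact (R.J a).2.1
  -- the projection fixes `p`
  have hcas : ∀ q : Icc (0:ℝ) 1 × Sph ι, PiB (q.2 : E ι) (∑ a, U.2.2 q a a) = ∑ a, U.2.2 q a a := by
    rintro ⟨t, x⟩
    have h1 : (∑ a, U.2.2 (t, x) a a) = ∑ a, lieX (Jst a) (lieX (Jst a) u) x :=
      Finset.sum_congr rfl fun a _ => hU2 t x a a
    rw [h1]
    exact PiB_casimir hu hJ (sph_norm x)
  have hp : ∀ q : Icc (0:ℝ) 1 × Sph ι, PiB (q.2 : E ι) (p q) = p q := by
    intro q
    rw [hfix q, map_add, PiB_PiB (sph_norm q.2), hcas q]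
  have hKp : ∀ q : Icc (0:ℝ) 1 × Sph ι, PiB (q.2 : E ι) (K p q) = K p q := by
    rintro ⟨t, x⟩
    have h1 := hK.comm (piOp ι) (fun J s f => piOp_comm hR J s f) p (fun t => by
      ext1 x; exact hp (t, x)) t
    exact congrArg (fun f : C(Sph ι, Bil (E ι)) => f x) h1
  set W : DD ι := jet K K1 K2 (U, p) with hW
  have hW0 : ∀ q, W.1 q = U.1 q + K p q := fun q => rfl
  have hW1 : ∀ q a, W.2.1 q a = U.2.1 q a + K1 a p q := fun q a => by
    show (U.2.1 + kh1 K1 p) q a = _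
    rw [LipSp.add_apply, Pi.add_apply, kh1_apply]
  have hW2 : ∀ q a b, W.2.2 q a b = U.2.2 q a b + K2 a b p q := fun q a b => by
    show (U.2.2 + kh2 K2 p) q a b = _
    rw [LipSp.add_apply, Pi.add_apply, Pi.add_apply, kh2_apply]
  -- cylinder metrics
  have hsymW : ∀ (q : Icc (0:ℝ) 1 × Sph ι) v w, W.1 q v w = W.1 q w v := by
    rintro ⟨t, x⟩ v w
    rw [hW0, hU0, ← hKp (t, x)]
    show u x v w + PiB (x : E ι) (K p (t, x)) v w = u x w v + PiB (x : E ι) (K p (t, x)) w v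
    rw [hu.metric.symm x (sph_mem_Om x) v w, PiB_symm]
  have hradW : ∀ (q : Icc (0:ℝ) 1 × Sph ι) w, W.1 q (q.2 : E ι) w = ⟪(q.2 : E ι), w⟫ := by
    rintro ⟨t, x⟩ w
    rw [hW0, hU0, ← hKp (t, x)]
    show u x (x : E ι) w + PiB (x : E ι) (K p (t, x)) (x : E ι) w = ⟪(x : E ι), w⟫
    rw [hu.radial x (sph_mem_Om x), PiB_radial (sph_norm x), sph_norm]
    norm_num
  have hCyl : ∀ t : Icc (0:ℝ) 1, IsCyl (hat W.1 t) := by
    intro t
    refine ⟨⟨isOpen_Om, hsmooth t t.2, ?_, ?_⟩, ?_, ?_⟩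
    · intro x hx v w
      rw [hat_eq _ _ x hx]
      show (‖x‖ ^ 2)⁻¹ * W.1 _ v w = (‖x‖ ^ 2)⁻¹ * W.1 _ w v
      rw [hsymW]
    · intro x hx v hv
      rw [hat_eq _ _ x hx]
      show 0 < (‖x‖ ^ 2)⁻¹ * W.1 _ v v
      have hxn : 0 < ‖x‖ := norm_pos_iff.2 hx
      have hvn : 0 < ‖v‖ := norm_pos_iff.2 hv
      apply mul_pos (by positivity)
      set q : Icc (0:ℝ) 1 × Sph ι := (projIcc 0 1 zero_le_one (t : ℝ), dir x hx)
      have h1 : |(W.1 q - del ι) v v| ≤ ‖W.1 q - del ι‖ * ‖v‖ * ‖v‖ :=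
        (W.1 q - del ι).le_opNorm₂ v v
      have h2 : (W.1 q - del ι) v v = W.1 q v v - ‖v‖ ^ 2 := by
        show W.1 q v v - ⟪v, v⟫ = _
        rw [real_inner_self_eq_norm_sq]
      rw [h2] at h1
      have h3 := hclose q
      have h4 : ‖W.1 q - del ι‖ * ‖v‖ * ‖v‖ < 1 * ‖v‖ * ‖v‖ := by
        apply mul_lt_mul_of_pos_right _ hvn
        exact mul_lt_mul_of_pos_right (h3.trans hr) hvn
      have h5 := abs_le.1 h1
      nlinarith [h5.1, h4]
    · exact hat_homog _ _
    · intro x hx w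
      rw [hat_eq _ _ x hx]
      show (‖x‖ ^ 2)⁻¹ * W.1 _ x w = _
      have hxn : 0 < ‖x‖ := norm_pos_iff.2 hx
      have h1 := hradW (projIcc 0 1 zero_le_one (t : ℝ), dir x hx) w
      have h2 : W.1 (projIcc 0 1 zero_le_one (t : ℝ), dir x hx) x w
          = ‖x‖ * W.1 (projIcc 0 1 zero_le_one (t : ℝ), dir x hx) (dir x hx : E ι) w := by
        have h20 : ∀ L : Bil (E ι), L x w = ‖x‖ * L (dir x hx : E ι) w := by
          intro L
          have h21 : L (‖x‖ • (dir x hx : E ι)) w = ‖x‖ * L (dir x hx : E ι) w := by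
            rw [L.map_smul]; rfl
          rwa [norm_smul_dir] at h21
        exact h20 _
      rw [h2]
      have h1' : W.1 (projIcc 0 1 zero_le_one (t : ℝ), dir x hx) (dir x hx : E ι) w
          = ⟪(dir x hx : E ι), w⟫ := h1
      rw [h1', dir_coe, real_inner_smul_left]
      field_simp
  -- generators
  have hg1 : ∀ (t : Icc (0:ℝ) 1) a, R.HasGen (R.J a) (sl W.1 t) (sl (comp1 a W.2.1) t) := by
    intro t a
    have h1 : R.HasGen (R.J a) (sl U.1 t) (sl (comp1 a U.2.1) t) := by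
      refine hgen ι R hR u hu.metric.smooth (R.J a) _ _ (fun x => hU0 t x) (fun x => ?_)
      show U.2.1 (t, x) a = _
      rw [hU1, hR.J_eq]
    have h2 := hasGen_add h1 (hK.gen1 p t a)
    have e1 : sl W.1 t = sl U.1 t + sl (K p) t := by ext1 x; rfl
    have e2 : sl (comp1 a W.2.1) t = sl (comp1 a U.2.1) t + sl (K1 a p) t := by
      ext1 x; exact hW1 (t, x) a
    rw [e1, e2]
    exact h2
  have hg2 : ∀ (t : Icc (0:ℝ) 1) a b,
      R.HasGen (R.J a) (sl (comp1 b W.2.1) t) (sl (comp2 a b W.2.2) t) := by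
    intro t a b
    have h1 : R.HasGen (R.J a) (sl (comp1 b U.2.1) t) (sl (comp2 a b U.2.2) t) := by
      refine hgen ι R hR (lieX (Jst b) u) (contDiffOn_lieX hu.metric.smooth _) (R.J a) _ _
        (fun x => hU1 t x b) (fun x => ?_)
      show U.2.2 (t, x) a b = _
      rw [hU2, hR.J_eq]
    have h2 := hasGen_add h1 (hK.gen2 p t a b)
    have e1 : sl (comp1 b W.2.1) t = sl (comp1 b U.2.1) t + sl (K1 b p) t := by
      ext1 x; exact hW1 (t, x) b
    have e2 : sl (comp2 a b W.2.2) t = sl (comp2 a b U.2.2) t + sl (K2 a b p) t := by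
      ext1 x; exact hW2 (t, x) a b
    rw [e1, e2]
    exact h2
  have hrestr : ∀ v : E ι → Bil (E ι), ContDiffOn ℝ ∞ v (Om ι) →
      ∃ f : C(Sph ι, Bil (E ι)), ∀ x : Sph ι, f x = v x := by
    intro v hv
    refine ⟨⟨fun x => v x, ?_⟩, fun x => rfl⟩
    have h1 := hv.continuousOn
    exact h1.comp_continuous continuous_subtype_val (fun x => sph_mem_Om x)
  have hj1 : ∀ (t : Icc (0:ℝ) 1) (x : Sph ι) a, W.2.1 (t, x) a = lieX (Jst a) (hat W.1 t) x := by
    intro t x a
    have hs := hsmooth t t.2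
    obtain ⟨f', hf'⟩ := hrestr _ (contDiffOn_lieX hs (Jst a))
    have h1 : R.HasGen (R.J a) (sl W.1 t) f' := by
      refine hgen ι R hR (hat W.1 t) hs (R.J a) _ _ (fun x => (hat_sph W.1 t x).symm) (fun x => ?_)
      rw [hf', hR.J_eq]
    have h2 := hasGen_unique (hg1 t a) h1
    have h3 := congrArg (fun f : C(Sph ι, Bil (E ι)) => f x) h2
    exact h3.trans (hf' x)
  have hj2 : ∀ (t : Icc (0:ℝ) 1) (x : Sph ι) a b,
      W.2.2 (t, x) a b = lieX (Jst a) (lieX (Jst b) (hat W.1 t)) x := by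
    intro t x a b
    have hs := contDiffOn_lieX (hsmooth t t.2) (Jst b)
    obtain ⟨f', hf'⟩ := hrestr _ (contDiffOn_lieX hs (Jst a))
    have h1 : R.HasGen (R.J a) (sl (comp1 b W.2.1) t) f' := by
      refine hgen ι R hR (lieX (Jst b) (hat W.1 t)) hs (R.J a) _ _ (fun x => hj1 t x b)
        (fun x => ?_)
      rw [hf', hR.J_eq]
    have h2 := hasGen_unique (hg2 t a b) h1
    have h3 := congrArg (fun f : C(Sph ι, Bil (E ι)) => f x) h2
    exact h3.trans (hf' x)
  refine ⟨?_, fun t => ⟨hCyl t, fun x => ⟨fun a => hj1 t x a, fun a b => hj2 t x a b⟩, ?_⟩⟩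
  · -- initial values
    intro x hx
    rw [hat_eq _ _ x hx]
    have h0 : projIcc (0:ℝ) 1 zero_le_one 0 = ⟨0, by simp⟩ := projIcc_left _
    rw [h0, hW0, hU0, hK.init, add_zero]
    have h1 := hu.homog ‖x‖ (norm_pos_iff.2 hx) (dir x hx) (sph_mem_Om _)
    rw [norm_smul_dir] at h1
    exact h1.symm
  · intro x hx v v'
    have hxn : 0 < ‖x‖ := norm_pos_iff.2 hx
    set y : Sph ι := dir x hx with hy
    -- the equation on the sphere
    have hmet := (hCyl t).metric
    have hkey : (∑ a, K2 a a p (t, y)) + p (t, y) =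
        (∑ a, lieX (Jst a) (lieX (Jst a) (hat W.1 t)) y)
          + (c ((y : E ι), hat W.1 t y) (fun a b => lieX (Jst a) (lieX (Jst b) (hat W.1 t)) y)
          + Gf ((y : E ι), hat W.1 t y, fun a => lieX (Jst a) (hat W.1 t) y)) := by
      set N : Bil (E ι) :=
        c ((y : E ι), hat W.1 t y) (fun a b => lieX (Jst a) (lieX (Jst b) (hat W.1 t)) y)
          + Gf ((y : E ι), hat W.1 t y, fun a => lieX (Jst a) (hat W.1 t) y) with hN
      have h1 : c ((y : E ι), W.1 (t, y)) (W.2.2 (t, y)) + Gf ((y : E ι), W.1 (t, y), W.2.1 (t, y))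
          = N := by
        have e1 : W.2.1 (t, y) = fun a => lieX (Jst a) (hat W.1 t) y := by
          funext a; exact hj1 t y a
        have e2 : W.2.2 (t, y) = fun a b => lieX (Jst a) (lieX (Jst b) (hat W.1 t)) y := by
          funext a b; exact hj2 t y a b
        rw [e1, e2, hN, hat_sph]
      have h2 := hfix (t, y)
      have h3 : p (t, y) = PiB (y : E ι) N + ∑ a, U.2.2 (t, y) a a := by
        rw [h2, ← h1]
      -- the right hand side is fixed by the projection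
      have h4 : PiB (y : E ι) ((∑ a, lieX (Jst a) (lieX (Jst a) (hat W.1 t)) y) + N)
          = (∑ a, lieX (Jst a) (lieX (Jst a) (hat W.1 t)) y) + N := by
        have hq : ∀ v w, rdt (hat W.1 t) y v w =
            ((∑ a, lieX (Jst a) (lieX (Jst a) (hat W.1 t)) y) + N) v w := by
          intro v w
          have h5 := hrdt (hat W.1 t) hmet (hat_homog _ _) y (sph_norm y) (by
            rw [hat_sph]; exact (hclose _).le) v w
          rw [h5, hN, add_assoc]
        apply PiB_fix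
        · intro v w
          rw [← hq, ← hq]
          exact (hsym ι (hat W.1 t) (Om ι) hmet y (sph_mem_Om y)).2.2.2.2.2 v w
        · intro w
          rw [← hq]
          exact ((hcyl ι (hat W.1 t) (hCyl t)).2 y (sph_mem_Om y)).2.2.1 w
      rw [map_add, PiB_casimir (hCyl t) hJ (sph_norm y)] at h4
      have h5 : PiB (y : E ι) N = N := add_left_cancel h4
      have h6 : ∀ a, K2 a a p (t, y) + U.2.2 (t, y) a a =
          lieX (Jst a) (lieX (Jst a) (hat W.1 t)) y := by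
        intro a
        rw [← hj2, hW2, add_comm]
      rw [h3, h5]
      have h7 : (∑ a, lieX (Jst a) (lieX (Jst a) (hat W.1 t)) (y : E ι)) =
          (∑ a, K2 a a p (t, y)) + ∑ a, U.2.2 (t, y) a a := by
        rw [← Finset.sum_add_distrib]
        exact Finset.sum_congr rfl fun a _ => (h6 a).symm
      rw [h7]
      abel
    have hrd : ∀ v w, rdt (hat W.1 t) y v w = ((∑ a, K2 a a p (t, y)) + p (t, y)) v w := by
      intro v w
      have h5 := hrdt (hat W.1 t) hmet (hat_homog _ _) y (sph_norm y) (by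
        rw [hat_sph]; exact (hclose _).le) v w
      rw [h5, hkey, add_assoc]
    have hrx : rdt (hat W.1 t) x v v' = (‖x‖ ^ 2)⁻¹ * rdt (hat W.1 t) y v v' := by
      have h5 := ((hcyl ι (hat W.1 t) (hCyl t)).2 y (sph_mem_Om y)).2.2.2.2 ‖x‖ hxn v v'
      rwa [norm_smul_dir] at h5
    have hder := hK.eqn p t y
    have hder2 : HasDerivWithinAt
        (fun s : ℝ => (‖x‖ ^ 2)⁻¹ * ((u y + K p (projIcc 0 1 zero_le_one s, y)) v v'))
        ((‖x‖ ^ 2)⁻¹ * ((T • ((∑ a, K2 a a p (t, y)) + p (t, y))) v v')) (Icc 0 1) t := by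
      apply HasDerivWithinAt.const_mul
      have h0 := hder.const_add (u y)
      have h1 : HasFDerivAt (fun b : Bil (E ι) => b v v')
          ((ContinuousLinearMap.apply ℝ ℝ v').comp (ContinuousLinearMap.apply ℝ (E ι →L[ℝ] ℝ) v))
          (u y + K p (projIcc 0 1 zero_le_one (t : ℝ), y)) :=
        ((ContinuousLinearMap.apply ℝ ℝ v').comp
          (ContinuousLinearMap.apply ℝ (E ι →L[ℝ] ℝ) v)).hasFDerivAt
      exact h1.comp_hasDerivWithinAt (t : ℝ) h0
    have hfin : (‖x‖ ^ 2)⁻¹ * ((T • ((∑ a, K2 a a p (t, y)) + p (t, y))) v v') =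
        T * rdt (hat W.1 t) x v v' := by
      rw [hrx, hrd]
      show (‖x‖ ^ 2)⁻¹ * (T * (((∑ a, K2 a a p (t, y)) + p (t, y)) v v')) =
        T * ((‖x‖ ^ 2)⁻¹ * (((∑ a, K2 a a p (t, y)) + p (t, y)) v v'))
      exact mul_left_comm _ _ _
    rw [← hfin]
    refine hder2.congr_of_mem (fun s _ => ?_) t.2
    rw [hat_eq _ _ x hx, hW0, hU0]
    rfl

end Pool.Agent.RF.H71
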